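import Pool.Agent.Lib.helper15.Sg5

/-! Unit ball graphs on the hyperboloid. -/

namespace Pool.Agent.H.MP_485bb6_lc

open Pool.Agent.Lib.CX Pool.Agent.Lib.ER Pool.Agent.Lib.SG Filter Topology Module

set_option synthInstance.maxSize 4000

def mk {d} (x y : Pt d) : ℝ := x.1 * y.1 - x.2 ⬝ᵥ y.2

def UB (d : ℕ) (a : Gr) : Prop :=
  ∃ K : ℝ, 1 < K ∧ Rep (fun x : Pt d => mk x x = 1 ∧ 0 < x.1) (fun x y => mk x y ≤ K) a

theorem memb (d) : Red (UB d) ETR :=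
  rep_memb (χ := .lt (.num 1) (.var 0))
    (ψ := fun u => .and (.eq (.mul (.var (1 + (d + 1) * u)) (.var (1 + (d + 1) * u)))
      (.add (.num 1) (dt (2 + (d + 1) * u) (2 + (d + 1) * u) d))) (.lt (.num 0) (.var (1 + (d + 1) * u))))
    (φ := fun e => .le (.mul (.var (1 + (d + 1) * e.1)) (.var (1 + (d + 1) * e.2)))
      (.add (.var 0) (dt (2 + (d + 1) * e.1) (2 + (d + 1) * e.2) d)))
    (pt_and (pt_eq (by fun_prop) (pt_add (PT.const _) (pt_dt (by fun_prop) (by fun_prop) d))) (by fun_prop))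
    (pt_le (by fun_prop) (pt_add (PT.const _) (pt_dt (by fun_prop) (by fun_prop) d)))
    (fun x => by simp [Fm.Holds, Tm.eval])
    (fun x u => by simp [Fm.Holds, Tm.eval, dt_eval, mk, pt, sub_eq_iff_eq_add])
    (fun x u v => by simp [Fm.Holds, Tm.eval, dt_eval, mk, pt])

variable {N : Type} [DecidableEq N]

def vs (I : Inst N) : List (ℕ × N) := (I.1.map fun i => (0, i)) ++ [1, 2] ×ˢ I.2.1

def r (I : Inst N) (u v : ℕ × N) : Bool :=
  decide (u.1 = v.1 ∨ u.1 = 0 ∧ (v.1 = 1 ↔ (u.2, v.2) ∈ I.2.2))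

theorem pt_red [Enc N] : PT fun I : Inst N => gr (vs I) (r I) := by unfold gr vs r; fun_prop

theorem mk_comm {d} (x y : Pt d) : mk x y = mk y x := by rw [mk, mk, mul_comm, dotProduct_comm]

theorem mem_vs {I : Inst N} {t i} : (t, i) ∈ vs I ↔ t = 0 ∧ i ∈ I.1 ∨ (t = 1 ∨ t = 2) ∧ i ∈ I.2.1 := by
  simp [vs, and_comm, eq_comm, and_or_left]

theorem ub_iff {d} (I : Inst N) : UB d (gr (vs I) (r I)) ↔ ∃ K : ℝ, 1 < K ∧ ∃ c : ℕ × N → Pt d,
    (∀ u ∈ vs I, mk (c u) (c u) = 1 ∧ 0 < (c u).1) ∧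
      ∀ u ∈ vs I, ∀ v ∈ vs I, u.1 ≤ v.1 → u ≠ v → (r I u v ↔ mk (c u) (c v) ≤ K) :=
  exists_congr fun _ => and_congr_right fun _ => rep_gr (fun u v h => by simp [r, h]) fun x y h => mk_comm x y ▸ h

theorem sound {d} (I : Inst N) (h : UB d (gr (vs I) (r I))) : SR (d + 1) I := by
  obtain ⟨K, -, c, -, h⟩ := (ub_iff I).1 h
  refine ⟨Pt d, inferInstance, inferInstance, inferInstance, by simp [add_comm], fun i => c (0, i),
    fun j => ⟨⟨fun x => mk x (c (2, j)) - mk x (c (1, j)), fun x y => by simp [mk]; ring⟩, fun x y => by simp [mk]; ring⟩,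
    fun i hi j hj => ?_⟩
  have a := h (0, i) (mem_vs.2 (by simp [hi])) (1, j) (mem_vs.2 (by simp [hj])) (by simp) (by simp)
  have b := h (0, i) (mem_vs.2 (by simp [hi])) (2, j) (mem_vs.2 (by simp [hj])) (by simp) (by simp)
  simp [r] at a b
  exact ⟨fun q => by simp [q] at a b ⊢; linarith, fun q => by simp [q] at a b ⊢; linarith⟩

def F {m} (x y : Pt m) : ℝ := (1 - (x.1 * x.1 + x.2 ⬝ᵥ x.2)) * (1 - (y.1 * y.1 + y.2 ⬝ᵥ y.2)) -
  8 * (x.1 * x.1 + x.2 ⬝ᵥ x.2 + (y.1 * y.1 + y.2 ⬝ᵥ y.2) - 2 * (x.1 * y.1 + x.2 ⬝ᵥ y.2))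

theorem complete {m} (I : Inst N) (h : NF m I) : UB (m + 1) (gr (vs I) (r I)) := by
  obtain ⟨α, β, y, z, h⟩ := h
  let c : ℝ → ℕ × N → Pt m := fun ε u => if u.1 = 0 then (ε ^ 3 * (3 / 16 * α u.2), (ε ^ 2 / 16) • y u.2) else
    ((if u.1 = 1 then 1 else -1) * (1 / 3 - 3 / 2 * ε ^ 2 * z u.2 ⬝ᵥ z u.2) - ε ^ 3 * β u.2 / 6,
      ((if u.1 = 1 then 1 else -1) * ε) • z u.2)
  have a : ∀ᶠ ε in 𝓝[>] (0 : ℝ), ∀ u ∈ vs I, 0 < 1 - ((c ε u).1 * (c ε u).1 + (c ε u).2 ⬝ᵥ (c ε u).2) :=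
    ev_all _ fun ⟨t, i⟩ hu => by
      have : ∀ g : ℝ → ℝ, Continuous g → 0 < g 0 → ∀ᶠ ε in 𝓝[>] (0 : ℝ), 0 < g ε := fun g a b => by
        simpa using ev_S (b := True) a (by simpa using b) 0
      rcases mem_vs.1 hu with ⟨rfl, -⟩ | ⟨rfl | rfl, -⟩ <;>
        simp only [c, if_true, if_false, one_ne_zero, OfNat.ofNat_ne_zero, OfNat.ofNat_ne_one, smul_dotProduct,
          dotProduct_smul, smul_eq_mul] <;> exact this _ (by fun_prop) (by norm_num)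
  have b : ∀ᶠ ε in 𝓝[>] (0 : ℝ), ∀ u ∈ vs I, ∀ v ∈ vs I, u.1 ≤ v.1 → S (r I u v) (F (c ε u) (c ε v)) :=
    ev_all _ fun ⟨t, i⟩ hu => ev_all _ fun ⟨s, j⟩ hv => by
      have e0 : ∀ (b : Prop) (g : ℝ → ℝ), Continuous g → S b (g 0) → ∀ᶠ ε in 𝓝[>] (0 : ℝ), S b (g ε) := fun b g a c => by
        simpa using ev_S a c 0
      have e3 : ∀ e : ℝ, e * e = 1 → ∀ b : Prop, S b (e * (α i + y i ⬝ᵥ z j) + e * β j) → ∀ᶠ ε in 𝓝[>] (0 : ℝ),
          S b (F (ε ^ 3 * (3 / 16 * α i), (ε ^ 2 / 16) • y i)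
            (e * (1 / 3 - 3 / 2 * ε ^ 2 * z j ⬝ᵥ z j) - ε ^ 3 * β j / 6, (e * ε) • z j)) := fun e he b q => by
        simp only [F, smul_dotProduct, dotProduct_smul, smul_eq_mul]
        generalize y i ⬝ᵥ z j = P, y i ⬝ᵥ y i = Y, z j ⬝ᵥ z j = Z, α i = A, β j = B at *
        refine (ev_S (g := fun ε => -9 * (ε * (3 / 2 * Z + e * ε * B / 6) ^ 2 - e * B / 9) -
          ε * (ε ^ 2 * (3 / 16 * A) ^ 2 + Y / 256) * (80 / 9 - ε ^ 3 * (ε * (3 / 2 * Z + e * ε * B / 6) ^ 2 - e * B / 9)) +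
          16 * (3 / 16 * A * (e * (1 / 3 - 3 / 2 * ε ^ 2 * Z) - ε ^ 3 * B / 6) + e * P / 16)) (by fun_prop)
          (by convert q using 1; ring) 3).mono fun ε t => ?_
        convert t using 1
        rcases mul_self_eq_one_iff.1 he with rfl | rfl <;> ring
      rcases mem_vs.1 hu with ⟨rfl, hi⟩ | ⟨rfl | rfl, hi⟩ <;> rcases mem_vs.1 hv with ⟨rfl, hj⟩ | ⟨rfl | rfl, hj⟩ <;>
        simp only [c, if_true, if_false, one_ne_zero, OfNat.ofNat_ne_zero, OfNat.ofNat_ne_one, r, le_refl, forall_true_left,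
          Nat.reduceLeDiff, zero_le, false_imp_iff, eventually_true, decide_eq_true_eq, Nat.reduceEqDiff, true_or, false_or,
          true_and, false_and, true_iff, false_iff, nonpos_iff_eq_zero]
      rotate_left
      · exact e3 1 (by simp) _ (by convert h i hi j hj using 1; ring)
      · exact e3 (-1) (by simp) _ ⟨fun q => by linarith [(h i hi j hj).2 q], fun q => by
          linarith [(h i hi j hj).1 (not_not.1 q)]⟩
      all_goals
        simp only [F, smul_dotProduct, dotProduct_smul, smul_eq_mul]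
        exact e0 _ _ (by fun_prop) (by norm_num)
  obtain ⟨ε, a, b⟩ := (a.and b).exists
  generalize c ε = c at a b
  have dc : ∀ (s t : ℝ) (v w : Fin m → ℝ), (Fin.cons s v : Fin (m + 1) → ℝ) ⬝ᵥ Fin.cons t w = s * t + v ⬝ᵥ w :=
    fun s t v w => by simp [dotProduct, Fin.sum_univ_succ]
  refine (ub_iff I).2 ⟨5 / 4, by norm_num, fun u => (1 - ((c u).1 * (c u).1 + (c u).2 ⬝ᵥ (c u).2))⁻¹ •
    (1 + ((c u).1 * (c u).1 + (c u).2 ⬝ᵥ (c u).2), (2 : ℝ) • Fin.cons (c u).1 (c u).2), fun u hu => ?_,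
    fun u hu v hv q _ => ?_⟩
  · have := a u hu
    have p : 0 ≤ (c u).2 ⬝ᵥ (c u).2 := Finset.sum_nonneg fun _ _ => mul_self_nonneg _
    simp only [mk, Prod.smul_mk, smul_dotProduct, dotProduct_smul, smul_eq_mul, dc]
    refine ⟨?_, mul_pos (inv_pos.2 this) (by nlinarith)⟩
    generalize (c u).1 * (c u).1 + (c u).2 ⬝ᵥ (c u).2 = U at *
    field_simp
    ring
  · have a1 := a u hu
    have a2 := a v hv
    have e : F (c u) (c v) ≠ 0 := by
      by_cases t : r I u v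
      exacts [((b u hu v hv q).1 t).ne', ((b u hu v hv q).2 t).ne]
    rw [(b u hu v hv q).iff, ← e.symm.le_iff_lt, F]
    simp only [mk, Prod.smul_mk, smul_dotProduct, dotProduct_smul, smul_eq_mul, dc]
    generalize (c u).1 * (c u).1 + (c u).2 ⬝ᵥ (c u).2 = U, (c v).1 * (c v).1 + (c v).2 ⬝ᵥ (c v).2 = V,
      (c u).1 * (c v).1 + (c u).2 ⬝ᵥ (c v).2 = D at *
    rw [← sub_nonneg (a := 5 / 4), ← mul_nonneg_iff_of_pos_left (mul_pos four_pos (mul_pos a1 a2)) (b := 5 / 4 - _)]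
    refine iff_of_eq (congrArg _ ?_)
    field_simp
    ring

theorem hard (d) (hd : 2 ≤ d) : Red ETR (UB d) := by
  obtain ⟨m, rfl⟩ : ∃ m, d = m + 2 := ⟨d - 2, by omega⟩
  obtain ⟨N, _, _, h⟩ := Pool.Agent.Lib.SG.hard m
  classical
  exact h _ _ _ pt_red complete sound

end Pool.Agent.H.MP_485bb6_lc
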